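import Pool.Agent.Q56.HP.Main

/-!
# The standard conjecture of Hodge type for abelian varieties over a finite field from codimension two

Let `𝒮` be the class of the polarized abelian varieties over the field with `q = p ^ a` elements, and
`E` a polarized supersingular abelian variety such that a square root `e` of `q` is an eigenvalue of
the Frobenius endomorphism on `H^1(E)` (an elliptic curve if `a` is even, an abelian surface if `a` is
odd).

1. If all Tate classes of codimension two on abelian varieties over this field are algebraic, and the
   standard conjecture of Hodge type holds for the algebraic classes in `H^1(E) ⊗ H^3(A)`, of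
   codimension two, on the products `E × A` with all abelian varieties `A`, then the strong Tate
   conjecture and the standard conjecture of Hodge type hold for all abelian varieties over this field
   in all codimensions, and homological and numerical equivalence coincide on them. (The strong Tate
   conjecture in codimension `j` says that the generalised eigenspace of the Frobenius endomorphism in
   `H^(2 j)` for the eigenvalue `q ^ j` is spanned by classes of cycles.)
2. More generally, let `𝒬` be any class of polarized smooth projective varieties (for example all
   surfaces, or all varieties of dimension at most `d`). The strong Tate conjecture and the standard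
   conjecture of Hodge type hold for all products of arbitrarily many abelian varieties and members of
   `𝒬` in all codimensions, if and only if the two conditions in 1 hold and both conjectures hold for
   the classes in `H^i(Y) ⊗ H^i(A)`, of codimension `i`, on the products `Y × A` of one `Y` in `𝒬` and
   one abelian variety `A`, for `1 ≤ i ≤ dim Y`.

The proof: for eigenvectors of Frobenius in `H^1(A_1), …, H^1(A_n)` with eigenvalues `z_1, …, z_n`
whose product is a power of `q`, consider the hermitian form on the classes of this type, all of which
are combinations of algebraic classes. Its positivity for all such classes is inherited by unions and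
differences of the multisets of the `z_i`. For the multisets `{z, q / z}` it follows from the Hodge
index theorem for divisors, so it follows for all multisets `R + R`. If `y ^ 2 = e z`, then
`{e, q / z, y, y}` belongs to `H^1(E) ⊗ H^3(A)`; every multiset `S` with `4 i` members together with
the multisets `{e, q / z, y, y}` for `z` in `S` is a union of pairs `{z, q / z}` and of a multiset
`R + R`. The primitive classes of higher degree on the members of `𝒬` are moved to abelian varieties
by the classes in `H^i(Y) ⊗ H^i(A)`, and the classes which are not primitive on the abelian varieties
are treated with the group law.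
-/

open CategoryTheory AlgebraicGeometry

universe u v

namespace Pool.Agent.Results.MP_361a6f_ag.CodimensionTwoAndSupersingular

open Pool.Agent.H914 Pool.Agent.H914.VarClass Pool.Agent.H914.VarClass.Obj
  Pool.Agent.H281R3.HT Pool.Agent.W552 Pool.Agent.Q56.FE Pool.Agent.Q56.CTS Pool.Agent.Q56.HPS

/-- **The strong Tate conjecture and the standard conjecture of Hodge type for abelian varieties over
a finite field, and for their products with any given varieties, from classes of low codimension on
products with a supersingular abelian variety.** -/
theorem result {k : Type u} [Field k] {𝒱 : VarClass k} {ops : CycleOps 𝒱}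
    (W : WeilCohomology.{u, v} ops) [IsAlgClosed W.K] {p : ℕ} [Fact p.Prime] {a : ℕ} (ha : 0 < a)
    (F : FrobeniusOver W (p ^ a)) (𝒜 : Set 𝒱.Obj) (hA : IsAbelianClass F 𝒜)
    (𝒮 : Set (Polarized 𝒱)) (hS : IsPolarizedClass W 𝒜 𝒮) (E : Polarized 𝒱) (hE : E ∈ 𝒮)
    (e : W.K) (he : e * e = ((p ^ a : ℕ) : W.K)) (heE : IsEigenvalue F E.X 1 e) :
    (CodimensionTwo F 𝒜 𝒮 E → TateHodgeForProducts F 𝒮) ∧
    ∀ 𝒬 : Set (Polarized 𝒱),
      (∀ Y ∈ 𝒬, IsGoodPolarized W Y ∧ ∀ i ≤ Y.X.dim, RiemannIn F Y.X i) →
      (CodimensionTwo F 𝒜 𝒮 E ∧ MixedTateHodge F 𝒬 𝒮 ↔ TateHodgeForProducts F (𝒮 ∪ 𝒬)) := by
  refine ⟨fun h => ?_, fun 𝒬 hQ => Pool.Agent.Q56.HP.main ha hA hS hE he heE hQ⟩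
  have h1 := (Pool.Agent.Q56.HP.main (𝒬 := ∅) ha hA hS hE he heE
    fun Y hY => absurd hY (Set.notMem_empty Y)).1 ⟨h, fun Y hY => absurd hY (Set.notMem_empty Y)⟩
  rwa [Set.union_empty] at h1

end Pool.Agent.Results.MP_361a6f_ag.CodimensionTwoAndSupersingular
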